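import Pool.Agent.Lib.MP_9e3d42_al.AD.TwE

open scoped TensorProduct

universe u

/-- The Huneke-Wiegand condition (HWC) in every dimension for Noetherian local domains `R` whose
completion is a regular local ring `S` modulo a regular sequence `fs` (`m = 0`), or a tower
`A 0 → A 1 → ⋯ → A m` of monogenic free extensions of such a ring, or maps faithfully flatly to
such a tower, provided that the localizations of `S/(fs)` at the primes `P` of height one have
maximal ideal `(x, y, z)`, where `x = p` unless `p = 0` in the localization, `p` being the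
characteristic of the residue field at `P`. -/
theorem Pool.Agent.Results.MP_9e3d42_al.EmbThree.result
    (R : Type u) [CommRing R] [IsDomain R] [IsLocalRing R] [IsNoetherianRing R]
    (S : Type u) [CommRing S] [IsLocalRing S] [IsNoetherianRing S] (fs : List S)
    (hS : ((IsLocalRing.maximalIdeal S).spanFinrank : WithBot ℕ∞) = ringKrullDim S)
    (hfs : RingTheory.Sequence.IsRegular S fs)
    (hE : ∀ (P : Ideal (S ⧸ Ideal.ofList fs)) [P.IsPrime], P.height = 1 →
      ∃ x y z : Localization.AtPrime P,
        Ideal.span {x, y, z} = IsLocalRing.maximalIdeal (Localization.AtPrime P) ∧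
        ((ringChar P.ResidueField : Localization.AtPrime P) = 0 ∨ x = ringChar P.ResidueField))
    (A : ℕ → Type u) [∀ i, CommRing (A i)] [∀ i, Algebra (A i) (A (i + 1))] (m : ℕ)
    (h0 : Nonempty (A 0 ≃+* (S ⧸ Ideal.ofList fs)))
    (hA : ∀ i < m, Nonempty (PowerBasis (A i) (A (i + 1))))
    (φ : AdicCompletion (IsLocalRing.maximalIdeal R) R →+* A m) (hφ : φ.FaithfullyFlat)
    (M : Type u) [AddCommGroup M] [Module R M] [Module.Finite R M]
    (hM : Submodule.torsion R M = ⊥)
    (hT : Module.IsReflexive R (M ⊗[R] Module.Dual R M)) :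
    Module.Free R M := by
  obtain ⟨e⟩ := h0
  have : IsRegularLocalRing S := ⟨hS⟩
  have := Submodule.isTorsionFree_iff_torsion_eq_bot.mpr hM
  exact Pool.Agent.Lib.MP_9e3d42_al.AD.free_of_tower3 A hfs hE e m hA _
    (RingHom.FaithfullyFlat.stableUnderComposition _ _
      (Pool.Agent.Lib.MP_9e3d42_al.TW.ff_of_compl (RingEquiv.refl _)) hφ) M
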