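import Pool.Agent.Lib.MP_9e3d42_al.RankOne

open scoped TensorProduct

/-- The Huneke-Wiegand condition for modules of rank one (ideals) over Noetherian local domains
`R` having a nonzero element `x` such that `R/xR` is `k[[Y,Z]]/(f,g)` with `f, g` a regular
sequence: one-dimensional complete intersections of codimension at most two. -/
theorem Pool.Agent.Results.MP_9e3d42_al.RankOne.result
    (R : Type*) [CommRing R] [IsDomain R] [IsLocalRing R] [IsNoetherianRing R]
    (k : Type*) [Field k] (x : R) (hx : x ≠ 0) (f g : MvPowerSeries (Fin 2) k)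
    (hfg : RingTheory.Sequence.IsRegular (MvPowerSeries (Fin 2) k) [f, g])
    (hR : Nonempty ((R ⧸ Ideal.span {x}) ≃+* (MvPowerSeries (Fin 2) k ⧸ Ideal.span {f, g})))
    (M : Type*) [AddCommGroup M] [Module R M] [Module.Finite R M]
    (hrank : Module.finrank R M = 1)
    (hM : Submodule.torsion R M = ⊥)
    (hT : Submodule.torsion R (M ⊗[R] Module.Dual R M) = ⊥) :
    Module.Free R M := by
  obtain ⟨φ⟩ := hR
  have := Submodule.isTorsionFree_iff_torsion_eq_bot.mpr hM
  have := Submodule.isTorsionFree_iff_torsion_eq_bot.mpr hT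
  exact Pool.Agent.Lib.MP_9e3d42_al.free_of_ps hx hfg φ M hrank
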