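import Pool.Agent.Lib.MP_9e3d42_al.Main

open scoped TensorProduct

/-- The Huneke-Wiegand condition, for all modules, over Noetherian local domains `R` having a
nonzero element `x` such that `R/xR` is a telescopic Artinian complete intersection
`k[X_1,…,X_c]/(X_i^{a_i} - γ_i ∏_{j<i} X_j^{m_ij})`. -/
theorem Pool.Agent.Results.MP_9e3d42_al.Telescopic.result
    (R : Type*) [CommRing R] [IsDomain R] [IsLocalRing R] [IsNoetherianRing R]
    (k : Type*) [Field k] (x : R) (hx : x ≠ 0)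
    (c : ℕ) (a n : Fin c → ℕ) (m : Fin c → Fin c → ℕ) (γ : Fin c → k)
    (ha : ∀ i, 0 < a i) (hn : ∀ i, 0 < n i) (hm : ∀ i j, i ≤ j → m i j = 0)
    (hgcd : ∀ i, Nat.gcd (n i) (∏ j ∈ Finset.Ici i, a j) = ∏ j ∈ Finset.Ioi i, a j)
    (hhom : ∀ i, γ i ≠ 0 → ∑ j, m i j * n j = a i * n i)
    (hR : Nonempty ((R ⧸ Ideal.span {x}) ≃+*
      (MvPolynomial (Fin c) k ⧸ Ideal.span (Set.range fun i =>
        (MvPolynomial.X i ^ a i - MvPolynomial.C (γ i) * ∏ j, MvPolynomial.X j ^ m i j :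
          MvPolynomial (Fin c) k)))))
    (M : Type*) [AddCommGroup M] [Module R M] [Module.Finite R M]
    (hM : Submodule.torsion R M = ⊥)
    (hT : Submodule.torsion R (M ⊗[R] Module.Dual R M) = ⊥) :
    Module.Free R M := by
  obtain ⟨φ⟩ := hR
  have := Submodule.isTorsionFree_iff_torsion_eq_bot.mpr hM
  have := Submodule.isTorsionFree_iff_torsion_eq_bot.mpr hT
  exact Pool.Agent.Lib.MP_9e3d42_al.free_of_tele hx ⟨ha, hn, hm, hgcd, hhom⟩ φ M
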