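import Pool.Agent.Lib.MP_9e3d42_al.TW.Main

open scoped TensorProduct

/-- The Huneke-Wiegand condition for all finitely generated modules over Noetherian local domains
`R` with a faithfully flat map (for instance the completion map) to the top `A m` of a tower
`A 0 → A 1 → ⋯ → A m` of local rings, where `A 0 = O[[Y,Z]]/(f,g)` is a one-dimensional complete
intersection of codimension at most two and each `A (i+1)` has a power basis over `A i` generated
by an element of its maximal ideal. -/
theorem Pool.Agent.Results.MP_9e3d42_al.Tower.result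
    (R : Type*) [CommRing R] [IsDomain R] [IsLocalRing R] [IsNoetherianRing R]
    (O : Type*) [CommRing O] [IsDomain O] [IsDiscreteValuationRing O]
    [IsAdicComplete (IsLocalRing.maximalIdeal O) O] (ϖ : O) (hϖ : Irreducible ϖ)
    (f g : MvPowerSeries (Fin 2) O)
    (hfg : RingTheory.Sequence.IsRegular (MvPowerSeries (Fin 2) O) [f, g, MvPowerSeries.C ϖ])
    (A : ℕ → Type*) [∀ i, CommRing (A i)] [∀ i, IsLocalRing (A i)]
    [∀ i, Algebra (A i) (A (i + 1))] (m : ℕ)
    (h0 : Nonempty (A 0 ≃+* (MvPowerSeries (Fin 2) O ⧸ Ideal.span {f, g})))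
    (hA : ∀ i < m, ∃ p : PowerBasis (A i) (A (i + 1)),
      p.gen ∈ IsLocalRing.maximalIdeal (A (i + 1)))
    (φ : R →+* A m) (hφ : φ.FaithfullyFlat)
    (M : Type*) [AddCommGroup M] [Module R M] [Module.Finite R M]
    (hM : Submodule.torsion R M = ⊥)
    (hT : Submodule.torsion R (M ⊗[R] Module.Dual R M) = ⊥) :
    Module.Free R M := by
  obtain ⟨e⟩ := h0
  have := Submodule.isTorsionFree_iff_torsion_eq_bot.mpr hM
  have := Submodule.isTorsionFree_iff_torsion_eq_bot.mpr hT
  exact Pool.Agent.Lib.MP_9e3d42_al.TW.free_of_tower hϖ hfg A m hA e φ hφ M
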